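import Pool.Agent.helper19.MX.SpecC

/-!
# MX, row CNT: a place of class 1
-/

set_option autoImplicit false

namespace MX

open Pool.Agent.helper53.AU AN
open scoped Classical Topology IntermediateField

noncomputable section

/-- a place lies over at most one constant -/
theorem CNT_uniq {k F : Type} [Field k] [Field F] [Algebra k F] (P : Place k F) (s : F) (c c' : k)
    (h : P.Ge 1 (s - algebraMap k F c)) (h' : P.Ge 1 (s - algebraMap k F c')) : c = c' := by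
  by_contra hne
  have h1 : P.Ge 1 (algebraMap k F (c' - c)) := by
    have h2 := h.sub h'
    have h3 : s - algebraMap k F c - (s - algebraMap k F c') = algebraMap k F (c' - c) := by
      rw [map_sub]; ring
    rwa [h3] at h2
  have hc : c' - c ≠ 0 := sub_ne_zero.2 (Ne.symm hne)
  have h2 := h1.le ((map_ne_zero (algebraMap k F)).2 hc)
  rw [P.ord_const _ hc] at h2
  omega

/-- an automorphism over `k(s)` maps the places over `c` to places over `c` -/
theorem CNT_smul {k F : Type} [Field k] [Field F] [Algebra k F] (P : Place k F) (s : F) (c : k)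
    (τ : F ≃ₐ[k] F) (hτ : τ s = s) (h : P.Ge 1 (s - algebraMap k F c)) :
    (τ • P).Ge 1 (s - algebraMap k F c) := by
  have h1 : τ (s - algebraMap k F c) = s - algebraMap k F c := by
    rw [map_sub, hτ, AlgEquiv.commutes]
  rw [← h1]
  exact (smul_ge τ P 1 _).2 h

/-- constants with `c ^ (4 ^ n) = c` are fixed by the automorphism -/
theorem CNT_const {k F : Type} [Field k] [CharP k 2] [Field F] [Algebra k F] (n : ℕ) (α : F ≃+* F)
    (hα : ∀ c : k, ∃ c' : k, α (algebraMap k F c) = algebraMap k F c' ∧ c' ^ (4 ^ n) = c)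
    (c : k) (hc : c ^ (4 ^ n) = c) : α (algebraMap k F c) = algebraMap k F c := by
  obtain ⟨c', h1, h2⟩ := hα c
  have h4 : (4 : ℕ) ^ n = 2 ^ (2 * n) := by
    rw [pow_mul]; norm_num
  have : Fact (Nat.Prime 2) := ⟨Nat.prime_two⟩
  have h3 : (c' - c) ^ (2 ^ (2 * n)) = 0 := by
    rw [sub_pow_char_pow, ← h4, h2, hc, sub_self]
  have h5 : c' - c = 0 := by
    by_contra h
    exact pow_ne_zero _ h h3
  rw [h1, sub_eq_zero.1 h5]

/-- arithmetic -/
theorem CNT_arith (b b1 m g l N : ℕ) (hm : 1 ≤ m)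
    (hl : b + m * b1 + m * (2 * g + 2) + g ^ 2 + 3 * g + 2 < l)
    (h1 : m * (l ^ 2 - b1) ≤ N)
    (h2 : (N : ℤ) ≤ b + ((m : ℤ) - 1) * ((l : ℤ) ^ 2 + (2 * g + 1) * l + 1)) : False := by
  have h3 : (m : ℤ) * ((l : ℤ) ^ 2 - b1) ≤ N := by
    have h4 : ((m * (l ^ 2 - b1) : ℕ) : ℤ) ≤ N := by exact_mod_cast h1
    refine le_trans ?_ h4
    rw [Nat.cast_mul]
    apply mul_le_mul_of_nonneg_left _ (by positivity)
    have : ((l ^ 2 : ℕ) : ℤ) - ((b1 : ℕ) : ℤ) ≤ ((l ^ 2 - b1 : ℕ) : ℤ) := by omega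
    push_cast at this ⊢
    linarith
  have h5 : (l : ℤ) ^ 2 ≤ b + m * b1 + ((m : ℤ) - 1) * ((2 * g + 1) * l + 1) := by nlinarith
  have h6 : ((b : ℤ) + m * b1 + m * (2 * g + 2) + g ^ 2 + 3 * g + 2) < l := by exact_mod_cast hl
  have hb : (0 : ℤ) ≤ b := by positivity
  have hb1 : (0 : ℤ) ≤ m * b1 := by positivity
  have hg : (0 : ℤ) ≤ (g : ℤ) := by positivity
  have hm0 : (0 : ℤ) ≤ (m : ℤ) := by positivity
  have hl0 : (1 : ℤ) ≤ (l : ℤ) := by omega
  have h7 : (l : ℤ) * ((b : ℤ) + m * b1 + m * (2 * g + 2) + g ^ 2 + 3 * g + 2) ≤ l * l :=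
    mul_le_mul_of_nonneg_left h6.le (by omega)
  have h8 : (b : ℤ) ≤ l * b := by nlinarith
  have h9 : (m : ℤ) * b1 ≤ l * (m * b1) := by nlinarith
  have h10 : ((m : ℤ) - 1) * ((2 * g + 1) * l + 1) ≤ m * ((2 * g + 2) * l) := by
    have h11 : (2 * (g : ℤ) + 1) * l + 1 ≤ (2 * g + 2) * l := by nlinarith
    have h12 : (0 : ℤ) ≤ (2 * (g : ℤ) + 1) * l + 1 := by positivity
    have h13 : (m : ℤ) * ((2 * (g : ℤ) + 1) * l + 1) ≤ m * ((2 * g + 2) * l) :=
      mul_le_mul_of_nonneg_left h11 hm0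
    nlinarith
  have h14 : (0 : ℤ) ≤ l * (g ^ 2 + 3 * g) := by positivity
  nlinarith

/-- CNT: a place of class 1 -/
theorem CNT (hQR2 : QR2_stmt) (hCN1 : CN1_stmt) (hCN2 : CN2_stmt) (hRTS : RTS_stmt)
    (hTPL : TPL_stmt) (hBSB : BSB_stmt) : CNT_stmt := by
  intro k F _ _ _ _ _ hFF s hs hG B
  obtain ⟨g, hg⟩ := hQR2 k F hFF
  obtain ⟨hfin, hov⟩ := hCN1 k F hFF s hs hG
  obtain ⟨B₁, hB₁⟩ := hCN2 k F hFF s hs hG
  choose pl hpl using fun c => (hov c).1
  have htr := fun c => (hov c).2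
  set Hf : Finset (F ≃ₐ[k] F) := hfin.toFinset with hHf
  have hmem : ∀ τ : F ≃ₐ[k] F, τ ∈ Hf ↔ τ s = s := by
    intro τ
    rw [hHf, Set.Finite.mem_toFinset]
    rfl
  have h1mem : (1 : F ≃ₐ[k] F) ∈ Hf := (hmem 1).2 rfl
  have hm1 : 1 ≤ Hf.card := Finset.card_pos.2 ⟨1, h1mem⟩
  refine ⟨B.card + Hf.card * B₁.card + Hf.card * (2 * g + 2) + g ^ 2 + 3 * g + 2, ?_⟩
  intro n hn α hα hαs
  by_contra hcon
  push Not at hcon
  obtain ⟨R, hRc, hR⟩ := hRTS k n (by omega)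
  set l : ℕ := 2 ^ n with hl
  have hl2 : (4 : ℕ) ^ n = l ^ 2 := by
    rw [hl, ← pow_mul, mul_comm, pow_mul]; norm_num
  have hlt : B.card + Hf.card * B₁.card + Hf.card * (2 * g + 2) + g ^ 2 + 3 * g + 2 < l :=
    lt_of_le_of_lt hn Nat.lt_two_pow_self
  -- the places over `R \ B₁`
  set T : Finset (Place k F) := ((R \ B₁) ×ˢ Hf).image (fun x => x.2 • pl x.1) with hT
  have hTcard : T.card = (R \ B₁).card * Hf.card := by
    rw [hT, Finset.card_image_of_injOn, Finset.card_product]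
    rintro ⟨c, τ⟩ hx ⟨c', τ'⟩ hx' hxx
    rw [Finset.mem_coe, Finset.mem_product] at hx hx'
    obtain ⟨hc, hτ⟩ := hx
    obtain ⟨hc', hτ'⟩ := hx'
    dsimp only at hc hτ hc' hτ' hxx
    have e1 := CNT_smul (pl c) s c τ ((hmem τ).1 hτ) (hpl c)
    have e2 := CNT_smul (pl c') s c' τ' ((hmem τ').1 hτ') (hpl c')
    rw [hxx] at e1
    have hcc : c = c' := CNT_uniq _ s c c' e1 e2
    subst hcc
    have e3 : (τ'⁻¹ * τ) • pl c = pl c := by
      rw [mul_smul, hxx, ← mul_smul, inv_mul_cancel, one_smul]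
    have e4 : (τ'⁻¹ * τ) s = s := by
      rw [AlgEquiv.mul_apply, (hmem τ).1 hτ]
      have := (hmem τ').1 hτ'
      calc τ'⁻¹ s = τ'⁻¹ (τ' s) := by rw [this]
        _ = s := τ'.symm_apply_apply s
    have e5 := hB₁ c (Finset.mem_sdiff.1 hc).2 (pl c) (hpl c) _ e4 e3
    have e6 : τ = τ' := by
      rw [inv_mul_eq_one] at e5
      exact e5.symm
    rw [e6]
  -- every such place is in one of the classes
  have hTcl : ∀ y ∈ T, ∃ τ ∈ Hf, ∀ f : F, y.ord (α f) = y.ord (τ f) := by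
    intro y hy
    rw [hT, Finset.mem_image] at hy
    obtain ⟨⟨c, τ⟩, hx, rfl⟩ := hy
    rw [Finset.mem_product] at hx
    obtain ⟨hc, hτ⟩ := hx
    dsimp only at hc hτ ⊢
    have hcR : c ^ (4 ^ n) = c := (hR c).1 (Finset.mem_sdiff.1 hc).1
    have hyc := CNT_smul (pl c) s c τ ((hmem τ).1 hτ) (hpl c)
    obtain ⟨P', hP'⟩ := hTPL k F α.symm (fun c => by
      obtain ⟨c', h1, _⟩ := hα c
      exact ⟨c', h1⟩) (τ • pl c)
    have hP2 : ∀ f : F, P'.ord f = (τ • pl c).ord (α f) := by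
      intro f
      have := hP' (α f)
      rwa [RingEquiv.symm_apply_apply] at this
    have hfix : α (s - algebraMap k F c) = s - algebraMap k F c := by
      rw [map_sub, hαs, CNT_const n α hα c hcR]
    have hP3 : P'.Ge 1 (s - algebraMap k F c) := by
      rcases hyc with h | h
      · exact Or.inl h
      · refine Or.inr ?_
        rw [hP2, hfix]
        exact h
    obtain ⟨σ, hσ, hσP⟩ := htr c (τ • pl c) P' hyc hP3
    refine ⟨σ⁻¹, (hmem _).2 ?_, ?_⟩
    · calc σ⁻¹ s = σ⁻¹ (σ s) := by rw [hσ]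
        _ = s := σ.symm_apply_apply s
    · intro f
      rw [← hP2, hσP]
      rfl
  -- counting
  have hsub : T ⊆ B ∪ (Hf.erase 1).biUnion
      (fun τ => T.filter (fun y => ∀ f : F, y.ord (α f) = y.ord (τ f))) := by
    intro y hy
    obtain ⟨τ, hτ, hyτ⟩ := hTcl y hy
    rw [Finset.mem_union]
    by_cases h1 : τ = 1
    · left
      by_contra hyB
      obtain ⟨f, hf⟩ := hcon y hyB
      apply hf
      rw [hyτ f, h1]
      rfl
    · right
      rw [Finset.mem_biUnion]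
      exact ⟨τ, Finset.mem_erase.2 ⟨h1, hτ⟩, Finset.mem_filter.2 ⟨hy, hyτ⟩⟩
  have hbd : ∀ τ ∈ Hf.erase 1,
      ((T.filter (fun y => ∀ f : F, y.ord (α f) = y.ord (τ f))).card : ℤ) ≤
        (l : ℤ) ^ 2 + (2 * g + 1) * l + 1 := by
    intro τ hτ
    have : Fact (Nat.Prime 2) := ⟨Nat.prime_two⟩
    refine hBSB 2 k F hFF g hg n l hl ?_ α ?_ τ _ ?_
    · refine lt_of_le_of_lt ?_ hlt
      have : 0 ≤ B.card + Hf.card * B₁.card + Hf.card * (2 * g + 2) := bot_le
      omega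
    · intro c
      obtain ⟨c', h1, h2⟩ := hα c
      exact ⟨c', h1, by rw [← hl2]; exact h2⟩
    · intro y hy
      exact (Finset.mem_filter.1 hy).2
  have hN2 : (T.card : ℤ) ≤ B.card + ((Hf.card : ℤ) - 1) * ((l : ℤ) ^ 2 + (2 * g + 1) * l + 1) := by
    have h1 := (Finset.card_le_card hsub).trans (Finset.card_union_le _ _)
    have h2 : (((Hf.erase 1).biUnion
        (fun τ => T.filter (fun y => ∀ f : F, y.ord (α f) = y.ord (τ f)))).card : ℤ) ≤
        ∑ τ ∈ Hf.erase 1, ((T.filter (fun y => ∀ f : F, y.ord (α f) = y.ord (τ f))).card : ℤ) := by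
      exact_mod_cast Finset.card_biUnion_le
    have h3 := Finset.sum_le_sum hbd
    rw [Finset.sum_const, Finset.card_erase_of_mem h1mem, nsmul_eq_mul, Nat.cast_sub hm1,
      Nat.cast_one] at h3
    have h4 : (T.card : ℤ) ≤ (B.card : ℤ) + (((Hf.erase 1).biUnion
        (fun τ => T.filter (fun y => ∀ f : F, y.ord (α f) = y.ord (τ f)))).card : ℤ) := by
      exact_mod_cast h1
    linarith
  have hN1 : Hf.card * (l ^ 2 - B₁.card) ≤ T.card := by
    rw [hTcard, mul_comm]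
    apply Nat.mul_le_mul_right
    rw [← hl2, ← hRc]
    exact Finset.le_card_sdiff _ _
  exact CNT_arith B.card B₁.card Hf.card g l T.card hm1 hlt hN1 hN2

end

end MX
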