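import Pool.Agent.helper19.MX.SpecA

/-!
# Row mx:IDA (MP_a875de_ag): the operation P in the two kinds of coordinates
-/

set_option autoImplicit false

namespace MX

open Pool.Agent.helper53.AU AN
open scoped Classical Topology

theorem IDA_cut {L : Type} [Field L] (h : ℕ) (a : ℕ → L) (ha : Lev h a) (j : ℕ) :
    cut h (fun j => bb h a j ^ 2) j = a j ^ (2 ^ (h + 1 - j)) := by
  unfold cut
  by_cases hj : j ≤ h
  · rw [if_pos hj]
    show (a j ^ (2 ^ (h - j))) ^ 2 = _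
    have e : h + 1 - j = (h - j) + 1 := by omega
    rw [e, ← pow_mul, pow_succ]
  · rw [if_neg hj, ha.2 j (by omega), zero_pow (by positivity)]

/-- ROW mx:IDA. -/
theorem IDA : IDA_stmt := by
  intro L _ _ h hh a d ha i hi
  have hadd : ∀ (x y : L) (e : ℕ), (x + y) ^ (2 ^ e) = x ^ (2 ^ e) + y ^ (2 ^ e) :=
    fun x y e => add_pow_char_pow x y 2 e
  have key : bb (h + 1) (Ad a d) i = (Ad a d i) ^ (2 ^ (h + 1 - i)) := rfl
  rw [key]
  unfold Ad Ud
  rw [IDA_cut h a ha, IDA_cut h a ha, IDA_cut h a ha]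
  set e := h + 1 - i with he
  rw [hadd, hadd, hadd]
  have t1 : (if 2 ≤ i then d * a (i - 1) ^ 2 else 0) ^ (2 ^ e) =
      if 2 ≤ i then a (i - 1) ^ (2 ^ (h + 1 - (i - 1))) * d ^ (2 ^ e) else 0 := by
    by_cases h2 : 2 ≤ i
    · rw [if_pos h2, if_pos h2]
      have e1 : h + 1 - (i - 1) = e + 1 := by omega
      rw [e1, mul_pow, ← pow_mul, pow_succ 2 e, mul_comm 2 (2 ^ e)]
      ring
    · rw [if_neg h2, if_neg h2, zero_pow (by positivity)]
  have t3 : (a i ^ 2 * d ^ (2 ^ i + 1)) ^ (2 ^ e) =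
      (a i ^ (2 ^ e)) ^ 2 * d ^ (2 ^ (h + 1) + 2 ^ e) := by
    have e1 : (2 ^ i + 1) * 2 ^ e = 2 ^ (h + 1) + 2 ^ e := by
      rw [add_mul, one_mul, ← pow_add]
      have : i + e = h + 1 := by omega
      rw [this]
    rw [mul_pow, ← pow_mul, ← pow_mul, ← pow_mul, e1, mul_comm 2 (2 ^ e)]
  have t4 : (a (i + 1) * d ^ (2 ^ i)) ^ (2 ^ e) =
      (a (i + 1) ^ (2 ^ (h + 1 - (i + 1)))) ^ 2 * d ^ (2 ^ (h + 1)) := by
    by_cases hi2 : i ≤ h
    · have e1 : e = (h + 1 - (i + 1)) + 1 := by omega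
      have e2 : 2 ^ i * 2 ^ e = 2 ^ (h + 1) := by
        rw [← pow_add]
        have : i + e = h + 1 := by omega
        rw [this]
      rw [mul_pow, ← pow_mul, ← pow_mul, e2]
      have e3 : 2 ^ e = 2 ^ (h + 1 - (i + 1)) * 2 := by
        rw [e1, pow_succ]
      rw [e3]
    · rw [ha.2 (i + 1) (by omega), zero_mul, zero_pow (by positivity), zero_pow (by positivity)]
      ring
  rw [t1, t3, t4]
  ring

end MX
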