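import Pool.Agent.helper19.MX.SpecA

/-!
# Row mx:LFI (MP_a875de_ag): good spaces over the local field
-/

set_option autoImplicit false

namespace MX

open Pool.Agent.helper53.AU AN
open scoped Classical Topology

/-- ROW mx:LFI. -/
theorem LFI (hLTO : LTO_stmt) (hLCH : LCH_stmt) (hGAL : GAL_stmt) : LFI_stmt := by
  intro g
  obtain ⟨τ, h1, h2, h3, h4⟩ := hLTO
  have h5 : CharP Lam 2 := hLCH
  exact @hGAL Lam _ h5 τ h1 h2 h3 h4 thL (sL⁻¹) rfl g

end MX
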